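import Mathlib
import Pool.Agent.Lib.MP_ca1982_an.Main

namespace Pool.Agent.Results.MP_ca1982_an.AllSumsets

/-- There is a compact set K in the unit square that meets every line meeting the square and
all of whose l-fold sumsets are nowhere dense. -/
theorem result : ∃ K : Set (EuclideanSpace ℝ (Fin 2)), IsCompact K ∧
    K ⊆ {p | ∀ i, p i ∈ Set.Icc (0 : ℝ) 1} ∧
    (∀ L : AffineSubspace ℝ (EuclideanSpace ℝ (Fin 2)), Module.finrank ℝ L.direction = 1 →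
      ((L : Set (EuclideanSpace ℝ (Fin 2))) ∩ {p | ∀ i, p i ∈ Set.Icc (0 : ℝ) 1}).Nonempty →
      ((L : Set (EuclideanSpace ℝ (Fin 2))) ∩ K).Nonempty) ∧
    ∀ l : ℕ, 1 ≤ l → IsNowhereDense
      {y | ∃ x : Fin l → EuclideanSpace ℝ (Fin 2), (∀ m, x m ∈ K) ∧ ∑ m, x m = y} := by
  obtain ⟨K, h1, h2, h3, h4⟩ := Pool.Agent.Lib.MP_ca1982_an.main
  exact ⟨K, h1, h2, h3, fun l _ => h4 l⟩

end Pool.Agent.Results.MP_ca1982_an.AllSumsets
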